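import Pool.Agent.Lib.MP_fb520c_co.H33.PolyArea

/-! Area bounds, linear in the number of sides, for the three kinds of cells. -/

set_option autoImplicit false

open MeasureTheory Set Real Filter Topology Metric
open scoped ENNReal

noncomputable section

namespace Pool.Agent.Lib.MP_fb520c_co

variable {C : Set Plane}

lemma sym0_unit : Sym0 (closedBall (0 : Plane) 1) where
  cpt := isCompact_closedBall _ _
  cvx := convex_closedBall _ _
  sym z hz := by simpa using hz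
  int := ⟨1, one_pos, subset_rfl⟩

lemma volume_half33 {P : Set Plane} (hm : MeasurableSet P) (hc : Convex ℝ P) (h0 : (0 : Plane) ∉ P)
    (h : P ⊆ closedBall 0 1) : volume P ≤ ENNReal.ofReal (π / 2) := by
  have hd : Disjoint P (-P) := Set.disjoint_left.2 fun z h1 h2 => h0 (by
    have := hc h1 (Set.mem_neg.1 h2) (a := 1 / 2) (b := 1 / 2) (by norm_num) (by norm_num)
      (by norm_num)
    simpa using this)
  have h2 : volume P + volume P ≤ ENNReal.ofReal π := by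
    nth_rewrite 2 [← Measure.measure_neg volume P]
    rw [← measure_union hd hm.neg]
    refine (measure_mono (union_subset h fun z hz => ?_)).trans
      (le_of_eq ((volume_closedBall_eq 0 1 zero_le_one).trans (by simp)))
    simpa using h (Set.mem_neg.1 hz)
  rw [ENNReal.ofReal_div_of_pos two_pos, ENNReal.le_div_iff_mul_le (Or.inl (by simp))
    (Or.inl (by simp))]
  simpa [mul_two] using h2

lemma poly_preimage33 (g : Plane ≃ᵢ Plane) {S : Finset (Plane × ℝ)} (hS : ∀ y ∈ S, y.1 ≠ 0) :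
    ∃ S' : Finset (Plane × ℝ), S'.card ≤ S.card ∧ (∀ y ∈ S', y.1 ≠ 0) ∧
      poly S' = g ⁻¹' poly S := by
  classical
  choose! ρ u hρ e using fun (y : Plane × ℝ) (hy : y ∈ S) => fv_isometry g (hS y hy)
  have k : ∀ y z, fv (pol (ρ y) (u y)) z = ρ y * ip z (u y) := fun y z => by
    simp only [fv, pol, ip, pt_zero, pt_one]; ring
  refine ⟨S.image fun y => (pol (ρ y) (u y), y.2 - fv y.1 (g 0)), Finset.card_image_le, ?_, ?_⟩
  · intro y hy
    obtain ⟨x, hx, rfl⟩ := Finset.mem_image.1 hy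
    rw [← norm_ne_zero_iff, norm_pol, abs_ne_zero]
    exact (hρ x hx).ne'
  · ext z
    simp only [poly, Finset.forall_mem_image, mem_ofPred_eq, mem_preimage, k]
    refine forall₂_congr fun y hy => ?_
    rw [e y hy z]
    constructor <;> intro <;> linarith

lemma three_le_sides {S : Finset (Plane × ℝ)} (hS : ∀ y ∈ S, y.1 ≠ 0) {a : Plane}
    (h : poly S ⊆ closedBall a 1) (hne : (poly S).Nonempty) : 3 ≤ S.card := by
  classical
  by_contra hn
  obtain ⟨z, hz⟩ := hne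
  obtain ⟨v, hv, hv'⟩ : ∃ v : Plane, v ≠ 0 ∧ ∀ y ∈ S, fv y.1 v ≤ 0 := by
    have two : ∀ p q : Plane, p ≠ 0 → ∃ v : Plane, v ≠ 0 ∧ fv p v ≤ 0 ∧ fv q v ≤ 0 := by
      intro p q hp
      have n1 : pt (-p 1) (p 0) ≠ 0 := fun e => hp (plane_ext (congrArg (· 1) e)
        (neg_eq_zero.1 (congrArg (· 0) e)))
      rcases le_total (dt p q) 0 with k | k
      · exact ⟨_, n1, by simp [fv]; linarith, by simp [fv, dt] at k ⊢; linarith⟩
      · exact ⟨_, neg_ne_zero.2 n1, by simp [fv]; linarith, by simp [fv, dt] at k ⊢; linarith⟩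
    have : S.card = 0 ∨ S.card = 1 ∨ S.card = 2 := by omega
    rcases this with k | k | k
    · exact ⟨pol 1 0, pol_ne_zero33 0, by simp [Finset.card_eq_zero.1 k]⟩
    · obtain ⟨p, rfl⟩ := Finset.card_eq_one.1 k
      obtain ⟨v, h1, h2, -⟩ := two p.1 p.1 (hS p (by simp))
      exact ⟨v, h1, by simpa using h2⟩
    · obtain ⟨p, q, -, rfl⟩ := Finset.card_eq_two.1 k
      obtain ⟨v, h1, h2, h3⟩ := two p.1 q.1 (hS p (by simp))
      exact ⟨v, h1, by simpa using ⟨h2, h3⟩⟩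
  have hn := norm_pos_iff.2 hv
  have : z + (3 / ‖v‖) • v ∈ poly S := fun y hy => by
    rw [fv_add_smul]
    have := mul_nonpos_of_nonneg_of_nonpos (show 0 ≤ 3 / ‖v‖ by positivity) (hv' y hy)
    linarith [hz y hy]
  have k := dist_triangle_right (z + (3 / ‖v‖) • v) z a
  rw [dist_eq_norm, add_sub_cancel_left, norm_smul, Real.norm_eq_abs, abs_of_pos (by positivity),
    div_mul_cancel₀ _ hn.ne'] at k
  linarith [mem_closedBall.1 (h this), mem_closedBall.1 (h hz)]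

lemma sin_pos_gap33 {x : ℝ} (h : 0 < sin x) (h1 : -π < x) (h2 : x < 2 * π) : 0 < x ∧ x < π := by
  constructor
  · by_contra k
    linarith [sin_nonpos_of_nonpos_of_neg_pi_le (not_lt.1 k) h1.le]
  · by_contra k
    have := sin_nonneg_of_nonneg_of_le_pi (x := x - π) (by linarith) (by linarith)
    rw [sin_sub_pi] at this
    linarith

lemma Sym0.exists_dir33 (hC : Sym0 C) {P : Plane} (hP : P ∈ C) (h : P 1 ≠ 0) :
    ∃ θ μ : ℝ, 1 ≤ μ ∧ bd C θ = μ • P ∧ -π < θ ∧ θ < π ∧ (P 1 < 0 → θ < 0) ∧ (0 < P 1 → 0 < θ) := by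
  obtain ⟨ρ, θ, hρ, h1, h2, e0, e1⟩ := exists_angle (P 0) (P 1) (Or.inr h)
  have e : P = ρ • pol 1 θ := by rw [← pol_smul33]; exact plane_ext e0 e1
  have g := hC.g_pos (pol_ne_zero33 θ)
  have k := hC.g_le.2 hP
  rw [e, hC.g_smul, abs_of_pos hρ] at k
  refine ⟨θ, (ρ * gauge C (pol 1 θ))⁻¹, (one_le_inv₀ (by positivity)).2 k, ?_, h1,
    lt_of_le_of_ne h2 fun q => h (by rw [e1, q]; simp), fun q => ?_, fun q => ?_⟩
  · rw [bd, e, smul_smul]; congr 1; field_simp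
  · by_contra q'
    have := mul_nonneg hρ.le (sin_nonneg_of_nonneg_of_le_pi (not_lt.1 q') h2)
    linarith
  · by_contra q'
    have := mul_nonpos_of_nonneg_of_nonpos hρ.le
      (sin_nonpos_of_nonpos_of_neg_pi_le (not_lt.1 q') h1.le)
    linarith

lemma Sym0.gap33 (hC : Sym0 C) {P Q : Plane} {s t μ ν : ℝ} (hμ : 1 ≤ μ) (hν : 1 ≤ ν)
    (e1 : bd C s = μ • P) (e2 : bd C t = ν • Q) (h : 0 < dt P Q) (h1 : -π < t - s)
    (h2 : t - s < 2 * π) : (s < t ∧ t < s + π) ∧ dt P Q ≤ dt (bd C s) (bd C t) := by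
  obtain ⟨κ, hκ, e⟩ := hC.dt_bd s t
  have k : dt P Q ≤ dt (bd C s) (bd C t) := by
    rw [e1, e2, dt_smul_left, dt_smul_right, ← mul_assoc]
    exact le_mul_of_one_le_left h.le (one_le_mul_of_one_le_of_one_le hμ hν)
  have := sin_pos_gap33 ((mul_pos_iff_of_pos_left hκ).1 (e ▸ h.trans_le k)) h1 h2
  exact ⟨⟨by linarith, by linarith⟩, k⟩

lemma Sym0.pentagon (hC : Sym0 C) {P0 P1 P2 P3 P4 : Plane} (m0 : P0 ∈ C) (m1 : P1 ∈ C)
    (m2 : P2 ∈ C) (m3 : P3 ∈ C) (m4 : P4 ∈ C) (s0 : P0 1 < 0) (s1 : P1 1 < 0) (s2 : 0 < P2 1)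
    (s3 : 0 < P3 1) (s4 : 0 < P4 1) (d0 : 0 < dt P0 P1) (d1 : 0 < dt P1 P2) (d2 : 0 < dt P2 P3)
    (d3 : 0 < dt P3 P4) (d4 : 0 < dt P4 P0) : ∃ t, IsCyc 5 t ∧
      dt P0 P1 + dt P1 P2 + dt P2 P3 + dt P3 P4 + dt P4 P0 ≤ cyc C 5 t := by
  obtain ⟨t0, μ0, a0, b0, l0, u0, n0, -⟩ := hC.exists_dir33 m0 s0.ne
  obtain ⟨t1, μ1, a1, b1, l1, u1, n1, -⟩ := hC.exists_dir33 m1 s1.ne
  obtain ⟨t2, μ2, a2, b2, l2, u2, -, n2⟩ := hC.exists_dir33 m2 s2.ne'
  obtain ⟨t3, μ3, a3, b3, l3, u3, -, n3⟩ := hC.exists_dir33 m3 s3.ne'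
  obtain ⟨t4, μ4, a4, b4, l4, u4, -, n4⟩ := hC.exists_dir33 m4 s4.ne'
  have := n0 s0
  have := n1 s1
  have := n2 s2
  have := n3 s3
  have := n4 s4
  have b5 : bd C (t0 + 2 * π) = μ0 • P0 := by
    rw [two_mul, ← add_assoc, hC.bd_add_pi, hC.bd_add_pi, neg_neg, b0]
  have g0 := hC.gap33 a0 a1 b0 b1 d0 (by linarith) (by linarith)
  have g1 := hC.gap33 a1 a2 b1 b2 d1 (by linarith) (by linarith)
  have g2 := hC.gap33 a2 a3 b2 b3 d2 (by linarith) (by linarith)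
  have g3 := hC.gap33 a3 a4 b3 b4 d3 (by linarith) (by linarith)
  have g4 := hC.gap33 a4 a0 b4 b5 d4 (by linarith) (by linarith)
  refine ⟨fun k => match k with
    | 0 => t0 | 1 => t1 | 2 => t2 | 3 => t3 | 4 => t4 | _ => t0 + 2 * π, ⟨fun k hk => ?_, rfl⟩, ?_⟩
  · interval_cases k
    exacts [g0.1, g1.1, g2.1, g3.1, g4.1]
  · simp only [cyc, Finset.sum_range_succ, Finset.sum_range_zero]
    linarith [g0.2, g1.2, g2.2, g3.2, g4.2]

lemma volume_cut33 {e : Plane} (he : ‖e‖ = 1) {c : ℝ} (hc : 0 ≤ c) :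
    volume (closedBall (0 : Plane) 1 ∩ {z | fv e z ≤ c}) ≤ ENNReal.ofReal (π / 2 + 2 * c) := by
  have e2 : e 0 * e 0 - e 1 * -e 1 = 1 := by
    have := norm_sq_eq e
    rw [he] at this
    linarith
  have hs : closedBall (0 : Plane) 1 ∩ {z | fv e z ≤ c} ⊆ closedBall (0 : Plane) 1 ∩ {z | fv e z < 0}
      ∪ lin (e 0) (e 1) (-e 1) (e 0) ⁻¹' (Icc 0 c ×ˢ Icc (-1) 1) := by
    rintro z ⟨h1, h2⟩
    rcases lt_or_ge (fv e z) 0 with k | k
    · exact Or.inl ⟨h1, k⟩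
    · refine Or.inr ⟨⟨k, h2⟩, abs_le.1 (abs_le_one_iff_mul_self_le_one.2 ?_)⟩
      have := norm_sq_eq z
      have h3 : ‖z‖ ^ 2 ≤ 1 := pow_le_one₀ (norm_nonneg _) (mem_closedBall_zero_iff.1 h1)
      simp only [lin]
      nlinarith [sq_nonneg (e 0 * z 0 + e 1 * z 1)]
  refine (measure_mono hs).trans ((measure_union_le _ _).trans ?_)
  rw [ENNReal.ofReal_add (by positivity) (by positivity)]
  refine add_le_add (volume_half33 (measurableSet_closedBall.inter
    (isOpen_lt (continuous_fv e) continuous_const).measurableSet)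
    ((convex_closedBall _ _).inter (convex_half e 0)) (by simp [fv]) inter_subset_left) ?_
  rw [volume_lin_one e2 (measurableSet_Icc.prod measurableSet_Icc), Measure.volume_eq_prod,
    Measure.prod_prod, Real.volume_Icc, Real.volume_Icc, ← ENNReal.ofReal_mul (by linarith)]
  exact le_of_eq (by congr 1; ring)

lemma volume_poly_ball33 {S : Finset (Plane × ℝ)} (hS : ∀ y ∈ S, y.1 ≠ 0)
    (h : poly S ⊆ closedBall 0 1) :
    volume (poly S) ≤ ENNReal.ofReal (max (π / 2) (S.card / 2)) := by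
  by_cases h0 : (0 : Plane) ∈ poly S
  · obtain ⟨n, t, hn, -, hv⟩ := sym0_unit.poly_cyc hS h0 h
    refine hv.trans (ENNReal.ofReal_le_ofReal (le_max_of_le_right ?_))
    have : cyc (closedBall 0 1) n t ≤ n := by
      refine (Finset.sum_le_card_nsmul _ _ 1 fun k _ => ?_).trans (by simp)
      have k1 := mem_closedBall_zero_iff.1 (sym0_unit.bd_mem (t k))
      have k2 := mem_closedBall_zero_iff.1 (sym0_unit.bd_mem (t (k + 1)))
      generalize bd _ (t k) = X at *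
      generalize bd _ (t (k + 1)) = Y at *
      have h1 : ‖X‖ ^ 2 ≤ 1 := pow_le_one₀ (norm_nonneg _) k1
      have h2 : ‖Y‖ ^ 2 ≤ 1 := pow_le_one₀ (norm_nonneg _) k2
      rw [norm_sq_eq] at h1 h2
      simp only [dt]
      nlinarith [sq_nonneg (X 0 - Y 1), sq_nonneg (X 1 + Y 0)]
    have : (n : ℝ) ≤ S.card := by exact_mod_cast hn
    linarith
  · exact (volume_half33 (isOpen_poly S).measurableSet (convex_poly S) h0 h).trans
      (ENNReal.ofReal_le_ofReal (le_max_left _ _))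

theorem Sym0.cell_bounds (hC : Sym0 C) (h1 : C ⊆ closedBall 0 1) {h f c : ℝ}
    (hh : ∀ u ∈ C, ∀ v ∈ C, ∀ t ∈ C, hform u v t ≤ h) {P0 P1 P2 P3 P4 : Plane}
    (m0 : P0 ∈ C) (m1 : P1 ∈ C) (m2 : P2 ∈ C) (m3 : P3 ∈ C) (m4 : P4 ∈ C)
    (s0 : P0 1 < 0) (s1 : P1 1 < 0) (s2 : 0 < P2 1) (s3 : 0 < P3 1) (s4 : 0 < P4 1)
    (d0 : 0 < dt P0 P1) (d1 : 0 < dt P1 P2) (d2 : 0 < dt P2 P3) (d3 : 0 < dt P3 P4)
    (d4 : 0 < dt P4 P0) (hf : 2 * f ≤ dt P0 P1 + dt P1 P2 + dt P2 P3 + dt P3 P4 + dt P4 P0)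
    (hc : 0 ≤ c) (n5 : π / 2 + 2 * c ≤ f) (n4 : 2 + h ≤ 2 * f) (n3 : π / 2 + 2 * h ≤ 3 * f)
    (n0 : 5 * h ≤ 6 * f) :
    ∃ lam : ℝ, 0 ≤ lam ∧ 6 * lam ≤ h ∧ ∀ S : Finset (Plane × ℝ), (∀ y ∈ S, y.1 ≠ 0) →
      (∀ g : Plane ≃ᵢ Plane, poly S ⊆ g '' C →
        volume (poly S) ≤ ENNReal.ofReal (h + lam * (S.card - 6))) ∧
      (∀ a e : Plane, ‖e‖ = 1 → poly S ⊆ closedBall a 1 ∩ {z | fv e (z - a) ≤ c} →
        volume (poly S) ≤ ENNReal.ofReal (h + lam * (S.card - 6))) ∧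
      (∀ a : Plane, poly S ⊆ closedBall a 1 →
        volume (poly S) ≤ ENNReal.ofReal (2 * h + lam * (S.card - 6))) := by
  obtain ⟨t5, c5, f5⟩ := hC.pentagon m0 m1 m2 m3 m4 s0 s1 s2 s3 s4 d0 d1 d2 d3 d4
  obtain ⟨lam, l0, l1, hl⟩ := hC.exists_lam hh c5 (hf.trans f5)
  refine ⟨lam, l0, by linarith, fun S hS => ⟨fun g hg => ?_, fun a e he hg => ?_, fun a hg => ?_⟩⟩
  · obtain ⟨S', k1, k2, k3⟩ := poly_preimage33 g hS
    have hC' : poly S' ⊆ C := fun z hz => by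
      rw [k3] at hz
      obtain ⟨y, hy, e⟩ := hg hz
      rwa [← g.injective e]
    have k4 : (S'.card : ℝ) ≤ S.card := by exact_mod_cast k1
    rw [← volume_isometry_preimage g (isOpen_poly S).measurableSet, ← k3]
    rcases (poly S').eq_empty_or_nonempty with e | hne
    · simp [e]
    by_cases h0 : (0 : Plane) ∈ poly S'
    · obtain ⟨n, t, hn, ct, hv⟩ := hC.poly_cyc k2 h0 hC'
      have k5 : (n : ℝ) ≤ S'.card := by exact_mod_cast hn
      refine hv.trans (ENNReal.ofReal_le_ofReal ((hl n t ct).trans ?_))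
      have := mul_le_mul_of_nonneg_left (k5.trans k4) l0
      linarith
    · refine (volume_half33 (isOpen_poly _).measurableSet (convex_poly _) h0 (hC'.trans h1)).trans
        (ENNReal.ofReal_le_ofReal ?_)
      have k5 : (3 : ℝ) ≤ S'.card := by exact_mod_cast three_le_sides k2 (hC'.trans h1) hne
      have := mul_le_mul_of_nonneg_left (k5.trans k4) l0
      linarith
  · obtain ⟨S', k1, k2, k3⟩ := poly_preimage33 (IsometryEquiv.addLeft a) hS
    have hC' : poly S' ⊆ closedBall (0 : Plane) 1 ∩ {z | fv e z ≤ c} := fun z hz => by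
      rw [k3] at hz
      simpa using hg hz
    have k4 : (S'.card : ℝ) ≤ S.card := by exact_mod_cast k1
    have k6 := mul_le_mul_of_nonneg_left k4 l0
    rw [← volume_isometry_preimage (IsometryEquiv.addLeft a) (isOpen_poly S).measurableSet, ← k3]
    rcases (poly S').eq_empty_or_nonempty with e | hne
    · simp [e]
    have b := hC'.trans inter_subset_left
    have k5 := three_le_sides k2 b hne
    rcases le_or_gt 5 S'.card with q | q
    · refine (measure_mono hC').trans ((volume_cut33 he hc).trans (ENNReal.ofReal_le_ofReal ?_))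
      have q' : (5 : ℝ) ≤ S'.card := by exact_mod_cast q
      have := mul_le_mul_of_nonneg_left q' l0
      linarith
    · refine (volume_poly_ball33 k2 b).trans (ENNReal.ofReal_le_ofReal ?_)
      have : S'.card = 3 ∨ S'.card = 4 := by omega
      rcases this with q | q <;> rw [q] at k6 ⊢ <;> push_cast at k6 ⊢ <;>
        refine max_le ?_ ?_ <;> linarith [pi_gt_three, pi_lt_four]
  · refine (measure_mono hg).trans ?_
    rw [volume_closedBall_eq a 1 zero_le_one]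
    refine ENNReal.ofReal_le_ofReal ?_
    have := mul_nonneg l0 (Nat.cast_nonneg (α := ℝ) S.card)
    linarith

end Pool.Agent.Lib.MP_fb520c_co
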