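import Pool.Agent.Lib.MP_fb520c_co.H33.Loc2
import Pool.Agent.Lib.MP_fb520c_co.Cov.Fat
import Pool.Agent.Lib.MP_fb520c_co.Fat.Dens

/-! The covering density of a fat symmetric body is at least area over hexagon. -/

set_option autoImplicit false

open MeasureTheory Set Real Filter Topology Metric
open scoped ENNReal

noncomputable section

namespace Pool.Agent.Lib.MP_fb520c_co

theorem fatPolys {r c : ℝ} (hr : 1 / 2 ≤ r) (r1 : r ≤ 1) (hc : 0 ≤ c) (h : 1 - r ^ 2 ≤ c ^ 2) :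
    FatPolys r (2 * c) := by
  intro κ _ a K hK hp o L hL hcov
  classical
  let B : κ → Set Plane := fun k => (fun x => a k + x) ⁻¹' K k
  have hB : ∀ k x, x - a k ∈ B k ↔ x ∈ K k := fun k x => by simp [B]
  have hb : ∀ k, K k = closedBall (a k) 1 → B k = closedBall 0 1 := fun k e => by
    simp [B, e]
  obtain ⟨S, I, k1, k2, k3, k4, k5⟩ := Cov.fat_polygons hr r1 a B (fun k =>
      ⟨(Homeomorph.addLeft (a k)).isCompact_preimage.2 (hK k).1, (hK k).2.1.translate_preimage_right _,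
        fun x hx => (hK k).2.2.1 (by simpa using hx), fun x hx => by simpa using (hK k).2.2.2 hx⟩)
    (fun k l hkl => by
      rcases hp k l hkl with ⟨e1, e2, e3⟩ | hd
      · exact Or.inl ⟨hb k e1, hb l e2, e3⟩
      · rw [dist_comm, dist_eq_norm] at hd
        exact Or.inr (by nlinarith)) o hL
    (fun x hx => let ⟨k, hk⟩ := hcov x hx; ⟨k, (hB k x).2 hk⟩)
  let E : Finset (Plane × ℝ) := {(pol 1 0, 0), (-pol 1 0, 0)}
  have hE : ∀ x, x ∉ poly E := fun x hx => by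
    have h1 := hx (pol 1 0, 0) (by simp [E])
    have h2 := hx (-pol 1 0, 0) (by simp [E])
    simp only [fv, PiLp.neg_apply] at h1 h2
    linarith
  have cE : E.card ≤ 6 := Finset.card_le_two.trans (by norm_num)
  refine ⟨fun k => if k ∈ I then S k else E, fun k y hy => ?_, fun k x hx => ?_,
    fun k l hkl e1 e2 x hx => ?_, ?_, k5.trans ?_⟩
  · by_cases hk : k ∈ I
    · exact k3 k y (by simpa [hk] using hy)
    · simp only [hk, if_false, E, Finset.mem_insert, Finset.mem_singleton] at hy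
      rcases hy with rfl | rfl
      · exact pol_ne_zero33 0
      · exact neg_ne_zero.2 (pol_ne_zero33 0)
  · by_cases hk : k ∈ I
    · exact (hB k x).1 (k1 k hk x (by simpa [hk] using hx))
    · exact absurd (by simpa [hk] using hx) (hE x)
  · by_cases hk : k ∈ I
    · have := k2 k hk l hkl (hb k e1) (hb l e2) x (by simpa [hk] using hx)
      rw [dist_eq_norm, dist_eq_norm]
      refine (abs_le_of_sq_le_sq' ?_ (norm_nonneg _)).2
      simp only [norm_sq_eq, fv, PiLp.sub_apply] at this ⊢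
      linarith
    · exact absurd (by simpa [hk] using hx) (hE x)
  · simp only
    have e0 : ∑ k ∈ I, (if k ∈ I then S k else E).card = ∑ k ∈ I, (S k).card :=
      Finset.sum_congr rfl fun k hk => by rw [if_pos hk]
    rw [← Finset.sum_add_sum_compl I, e0]
    have : ∑ k ∈ Iᶜ, (if k ∈ I then S k else E).card ≤ Iᶜ.card • 6 :=
      Finset.sum_le_card_nsmul _ _ _ fun k hk => by rw [if_neg (Finset.mem_compl.1 hk)]; exact cE
    have e := Finset.card_add_card_compl I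
    rw [smul_eq_mul] at this
    omega
  · simp only
    rw [← Finset.sum_add_sum_compl I]
    exact le_add_right (le_of_eq (Finset.sum_congr rfl fun k hk => by rw [if_pos hk]))

/-- The covering theorem for fat symmetric bodies that contain a large pentagon. -/
theorem Sym0.le_cd_pentagon {C : Set Plane} (hC : Sym0 C) {r c h f : ℝ} (r0 : 1 / 2 ≤ r)
    (r1 : r ≤ 1) (hr : closedBall 0 r ⊆ C) (h1 : C ⊆ closedBall 0 1)
    (hh : ∀ u ∈ C, ∀ v ∈ C, ∀ t ∈ C, hform u v t ≤ h) {P0 P1 P2 P3 P4 : Plane}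
    (m0 : P0 ∈ C) (m1 : P1 ∈ C) (m2 : P2 ∈ C) (m3 : P3 ∈ C) (m4 : P4 ∈ C)
    (s0 : P0 1 < 0) (s1 : P1 1 < 0) (s2 : 0 < P2 1) (s3 : 0 < P3 1) (s4 : 0 < P4 1)
    (d0 : 0 < dt P0 P1) (d1 : 0 < dt P1 P2) (d2 : 0 < dt P2 P3) (d3 : 0 < dt P3 P4)
    (d4 : 0 < dt P4 P0) (hf : 2 * f ≤ dt P0 P1 + dt P1 P2 + dt P2 P3 + dt P3 P4 + dt P4 P0)
    (hc : 0 ≤ c) (hrc : 1 - r ^ 2 ≤ c ^ 2) (n5 : π / 2 + 2 * c ≤ f) (n4 : 2 + h ≤ 2 * f)
    (n3 : π / 2 + 2 * h ≤ 3 * f) (n0 : 5 * h ≤ 6 * f) (h0 : 0 < h) :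
    ENNReal.ofReal ((volume C).toReal / h) ≤ cd C := by
  obtain ⟨lam, l0, l6, hb⟩ := hC.cell_bounds h1 hh m0 m1 m2 m3 m4 s0 s1 s2 s3 s4 d0 d1 d2 d3 d4 hf
    hc n5 n4 n3 n0
  exact le_iInf₂ fun _ k => dens hC.cpt hC.volume_ne one_pos
    (fun z hz => mem_closedBall_zero_iff.1 (h1 hz)) h0
    (hC.loc2 (fatPolys r0 r1 hc hrc) hr h1 hc l0 l6 hb) k.1 k.2

end Pool.Agent.Lib.MP_fb520c_co
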