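import Pool.Agent.Lib.MP_fb520c_co.H33.Monge

/-! Dowker's theorem for polygons inscribed in a centrally symmetric body. -/

set_option autoImplicit false

open Real Finset

noncomputable section

namespace Pool.Agent.Lib.MP_fb520c_co

variable {C : Set Plane}

/-- the boundary point in the direction of angle `θ` -/
def bd (C : Set Plane) (θ : ℝ) : Plane := (gauge C (pol 1 θ))⁻¹ • pol 1 θ

lemma pol_ne_zero33 (θ : ℝ) : pol 1 θ ≠ 0 := by
  rw [← norm_ne_zero_iff, norm_pol]; norm_num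

lemma dt_pol_pol (a b s t : ℝ) : dt (pol a s) (pol b t) = a * b * sin (t - s) := by
  simp only [dt, pol, pt_zero, pt_one, sin_sub]; ring

lemma pol_smul33 (a θ : ℝ) : pol a θ = a • pol 1 θ :=
  plane_ext (by simp [pol]) (by simp [pol])

lemma Sym0.g_bd (hC : Sym0 C) (θ : ℝ) : gauge C (bd C θ) = 1 := by
  have := hC.g_pos (pol_ne_zero33 θ)
  rw [bd, hC.g_smul, abs_of_pos (inv_pos.2 this), inv_mul_cancel₀ this.ne']

lemma Sym0.bd_mem (hC : Sym0 C) (θ : ℝ) : bd C θ ∈ C := hC.g_le.1 (hC.g_bd θ).le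

lemma Sym0.bd_add_pi (hC : Sym0 C) (θ : ℝ) : bd C (θ + π) = -bd C θ := by
  have e : pol 1 (θ + π) = -pol 1 θ := plane_ext (by simp [pol]) (by simp [pol])
  rw [bd, bd, e, hC.g_neg, smul_neg]

lemma Sym0.bd_cont (hC : Sym0 C) : Continuous (bd C) := by
  have h1 : Continuous fun θ => pol 1 θ := by simp only [pol, pt]; fun_prop
  exact ((hC.g_cont.comp h1).inv₀ fun θ => (hC.g_pos (pol_ne_zero33 θ)).ne').smul h1

lemma Sym0.dt_bd (hC : Sym0 C) (s t : ℝ) : ∃ κ, 0 < κ ∧ dt (bd C s) (bd C t) = κ * sin (t - s) := by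
  refine ⟨(gauge C (pol 1 s))⁻¹ * (gauge C (pol 1 t))⁻¹, mul_pos (inv_pos.2 (hC.g_pos
    (pol_ne_zero33 s))) (inv_pos.2 (hC.g_pos (pol_ne_zero33 t))), ?_⟩
  rw [bd, bd, dt_smul_left, dt_smul_right, dt_pol_pol]; ring

lemma Sym0.dt_bd_nonneg (hC : Sym0 C) {s t : ℝ} (h1 : s ≤ t) (h2 : t ≤ s + π) :
    0 ≤ dt (bd C s) (bd C t) := by
  obtain ⟨κ, hκ, e⟩ := hC.dt_bd s t
  rw [e]
  exact mul_nonneg hκ.le (sin_nonneg_of_nonneg_of_le_pi (by linarith) (by linarith))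

lemma Sym0.dt_bd_pos (hC : Sym0 C) {s t : ℝ} (h1 : s < t) (h2 : t < s + π) :
    0 < dt (bd C s) (bd C t) := by
  obtain ⟨κ, hκ, e⟩ := hC.dt_bd s t
  rw [e]
  exact mul_pos hκ (sin_pos_of_pos_of_lt_pi (by linarith) (by linarith))

lemma dt_ident33 (X Y Z : Plane) : dt X Z • Y = dt Y Z • X + dt X Y • Z :=
  plane_ext (by simp [dt]; ring) (by simp [dt]; ring)

lemma Sym0.three33 (hC : Sym0 C) {X Y Z : Plane} (hX : gauge C X = 1) (hY : gauge C Y = 1)
    (hZ : gauge C Z = 1) (h1 : 0 ≤ dt X Y) (h2 : 0 ≤ dt Y Z) (h3 : 0 ≤ dt X Z) :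
    dt X Z ≤ dt X Y + dt Y Z := by
  have := hC.g_comb h2 h1 (dt_ident33 X Y Z)
  rw [hC.g_smul, abs_of_nonneg h3, hX, hY, hZ] at this
  linarith

lemma four_alg33 {ab ac ad bc bd cd : ℝ} (h0 : ac * bd = ab * cd + ad * bc)
    (hcd : 0 ≤ cd) (hac : 0 < ac) (hbd : 0 < bd) (t1 : bc ≤ ac + ab)
    (t2 : ad ≤ ab + bd) (t3 : ac ≤ cd + ad) (t4 : bd ≤ bc + cd) : bc - ac ≤ bd - ad := by
  rcases le_total 0 (bc - ac) with h | h
  · refine le_of_mul_le_mul_left ?_ hac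
    nlinarith [mul_le_mul_of_nonneg_right t3 h, mul_nonneg hcd (sub_nonneg.2 t1)]
  rcases le_total (bd - ad) 0 with h' | h'
  · refine le_of_mul_le_mul_left ?_ hbd
    nlinarith [mul_le_mul_of_nonpos_right t4 h', mul_nonneg hcd (sub_nonneg.2 t2)]
  · linarith

lemma Sym0.four33 (hC : Sym0 C) {α β γ δ : ℝ} (h1 : α ≤ β) (h2 : β ≤ γ) (h3 : γ ≤ δ)
    (h4 : δ ≤ α + π) : 0 ≤ dt (bd C β - bd C α) (bd C δ - bd C γ) := by
  rcases h1.eq_or_lt with e | k1
  · rw [e, sub_self, dt_zero_left]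
  rcases h3.eq_or_lt with e | k3
  · rw [e, sub_self, dt_zero_right]
  have gA := hC.g_bd α
  have gB := hC.g_bd β
  have gC := hC.g_bd γ
  have gD := hC.g_bd δ
  have ab := hC.dt_bd_nonneg h1 (by linarith)
  have ac := hC.dt_bd_pos (s := α) (t := γ) (by linarith) (by linarith)
  have ad := hC.dt_bd_nonneg (s := α) (t := δ) (by linarith) h4
  have bc := hC.dt_bd_nonneg h2 (by linarith)
  have bd' := hC.dt_bd_pos (s := β) (t := δ) (by linarith) (by linarith)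
  have cd := hC.dt_bd_nonneg h3 (by linarith)
  generalize bd C α = A at *
  generalize bd C β = B at *
  generalize bd C γ = P at *
  generalize bd C δ = D at *
  have nA : gauge C (-A) = 1 := by rw [hC.g_neg, gA]
  have nB : gauge C (-B) = 1 := by rw [hC.g_neg, gB]
  have r : ∀ u v : Plane, dt u (-v) = dt v u := fun u v => by rw [dt_neg_right, dt_swap u v]
  have t1 := hC.three33 gC nA nB (by rw [r]; exact ac.le) (by rw [r, r]; exact ab)
    (by rw [r]; exact bc)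
  have t2 := hC.three33 gA gB gD ab bd'.le ad
  have t3 := hC.three33 gC gD nA cd (by rw [r]; exact ad) (by rw [r]; exact ac.le)
  have t4 := hC.three33 gB gC gD bc cd bd'.le
  rw [r, r, r, r] at t1
  rw [r, r] at t3
  have := four_alg33 (ab := dt A B) (by simp only [dt]; ring) cd ac bd' t1 t2 t3 t4
  rw [dt_sub_left, dt_sub_right, dt_sub_right]
  linarith

/-- the angles of the vertices of a polygon that surrounds the origin once -/
def IsCyc (n : ℕ) (t : ℕ → ℝ) : Prop :=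
  (∀ k < n, t k < t (k + 1) ∧ t (k + 1) < t k + π) ∧ t n = t 0 + 2 * π

/-- twice the area of the inscribed polygon -/
def cyc (C : Set Plane) (n : ℕ) (t : ℕ → ℝ) : ℝ := ∑ k ∈ range n, dt (bd C (t k)) (bd C (t (k + 1)))

theorem Sym0.dowker_in (hC : Sym0 C) {h : ℝ} (hh : ∀ u ∈ C, ∀ v ∈ C, ∀ t ∈ C, hform u v t ≤ h)
    {ι : Type} [Fintype ι] (n : ι → ℕ) (t : ι → ℕ → ℝ) (hc : ∀ i, IsCyc (n i) (t i))
    (hn : ∑ i, n i ≤ 6 * Fintype.card ι) : ∑ i, cyc C (n i) (t i) ≤ 2 * Fintype.card ι * h := by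
  classical
  set N := Fintype.card ι with hN
  rcases Nat.eq_zero_or_pos N with h0 | h0
  · have : IsEmpty ι := Fintype.card_eq_zero_iff.1 h0
    simp [h0]
  have hn0 : ∀ i, 0 < n i := fun i => Nat.pos_of_ne_zero fun e => by
    have := (hc i).2
    rw [e] at this
    linarith [pi_pos]
  obtain ⟨s, ι', q, hs, hsp, hι, hθ⟩ := exists_sorted33 (Y := Σ i, Fin (n i)) (M := 6 * N)
    (by omega) (by simpa using hn) fun y => t y.1 y.2
  obtain ⟨b, ψ, Λ, hb0, hbp, hψ, hkey, hsum⟩ := monge_pot33 (fun j => bd C (s j)) N (h := h)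
    (fun j => by rw [hsp, hC.bd_add_pi])
    (fun i j h1 h2 => by
      rcases h1.eq_or_lt with e | k1
      · rw [e, dt_self]
      rcases h2.eq_or_lt with e | k2
      · rw [e, show i + ((6 * N : ℕ) : ℤ) + 1 = i + 1 + (6 * N : ℕ) by ring, hsp, hsp, hC.bd_add_pi,
          hC.bd_add_pi]
        simp only [dt, PiLp.sub_apply, PiLp.neg_apply]
        exact le_of_eq (by ring)
      refine hC.four33 (hs (by omega)) (hs (by omega)) (hs (by omega)) ?_
      rw [← hsp]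
      exact hs (by omega))
    fun i j k => hh _ (hC.bd_mem _) _ (hC.bd_mem _) _ (hC.bd_mem _)
  have hbq : ∀ (q : ℤ) (i : ℤ), b (i + (6 * N : ℕ) * q) = b i := by
    intro q i
    have : Function.Periodic b ((6 * N : ℕ) : ℤ) := hbp
    have := this.int_mul q i
    rwa [Int.cast_id, mul_comm] at this
  have one : ∀ i, cyc C (n i) (t i) ≤ ∑ k : Fin (n i), b (ι' ⟨i, k⟩ : ℕ) + 2 * Λ := by
    intro i
    let J0 : Fin (n i) → ℤ := fun k => ((ι' ⟨i, k⟩ : ℕ) : ℤ) + (6 * N : ℕ) * q ⟨i, k⟩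
    let J : ℕ → ℤ := fun k => if hk : k < n i then J0 ⟨k, hk⟩ else
      J0 ⟨0, hn0 i⟩ + (6 * N : ℕ) + (6 * N : ℕ)
    have hJ : ∀ k ≤ n i, s (J k) = t i k := by
      intro k hk
      rcases hk.lt_or_eq with hk | hk
      · simp only [J, dif_pos hk]
        exact hθ ⟨i, ⟨k, hk⟩⟩
      · simp only [J, hk, lt_irrefl, dif_neg, not_false_iff]
        rw [hsp, hsp, (hc i).2]
        have := hθ ⟨i, ⟨0, hn0 i⟩⟩
        simp only [J0]
        rw [this]; simp only; ring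
    have step : ∀ k ∈ range (n i), dt (bd C (t i k)) (bd C (t i (k + 1))) ≤
        b (J k) + (ψ (J (k + 1)) - ψ (J k)) := by
      intro k hk
      rw [mem_range] at hk
      obtain ⟨k1, k2⟩ := (hc i).1 k hk
      rw [← hJ k hk.le, ← hJ (k + 1) hk] at k1 k2 ⊢
      rw [← hsp] at k2
      have := hkey (J k) (J (k + 1)) (hs.reflect_lt k1).le (hs.reflect_lt k2).le
      linarith
    refine (sum_le_sum step).trans (le_of_eq ?_)
    rw [sum_add_distrib, sum_range_sub (fun k => ψ (J k)), sum_range]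
    congr 1
    · refine sum_congr rfl fun k _ => ?_
      simp only [J, dif_pos k.2, J0]
      exact hbq _ _
    · simp only [J, lt_irrefl, dif_neg, not_false_iff, dif_pos (hn0 i)]
      rw [hψ, hψ]; ring
  have inj : ∑ y : Σ i, Fin (n i), b (ι' y : ℕ) ≤ ∑ j ∈ range (6 * N), b j := by
    rw [sum_range, ← sum_image (s := univ) (g := ι') (f := fun j : Fin (6 * N) => b (j : ℕ))
      hι.injOn]
    exact sum_le_sum_of_subset_of_nonneg (subset_univ _) fun j _ _ => hb0 _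
  refine (sum_le_sum fun i _ => one i).trans ?_
  rw [sum_add_distrib, sum_const, card_univ, ← hN, nsmul_eq_mul, ← Fintype.sum_sigma
    (fun y : Σ i, Fin (n i) => b (ι' y : ℕ))]
  linarith

lemma Sym0.cyc_six (hC : Sym0 C) {h : ℝ} (hh : ∀ u ∈ C, ∀ v ∈ C, ∀ t ∈ C, hform u v t ≤ h)
    {n : ℕ} {t : ℕ → ℝ} (hc : IsCyc n t) (hn : n ≤ 6) : cyc C n t ≤ 2 * h := by
  simpa using hC.dowker_in hh (ι := Unit) (fun _ => n) (fun _ => t) (fun _ => hc) (by simpa)

lemma Sym0.cyc_mix (hC : Sym0 C) {h : ℝ} (hh : ∀ u ∈ C, ∀ v ∈ C, ∀ t ∈ C, hform u v t ≤ h)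
    {n n' : ℕ} {t t' : ℕ → ℝ} (hc : IsCyc n t) (hc' : IsCyc n' t') (hn : n < 6) (hn' : 6 < n') :
    (cyc C n' t' / 2 - h) / (n' - 6) ≤ (h - cyc C n t / 2) / (6 - n) := by
  obtain ⟨a, rfl⟩ : ∃ a, n' = 6 + a := ⟨n' - 6, by omega⟩
  obtain ⟨b, hb⟩ : ∃ b, n + b = 6 := ⟨6 - n, by omega⟩
  have := hC.dowker_in hh (ι := Fin a ⊕ Fin b) (Sum.elim (fun _ => n) fun _ => 6 + a)
    (Sum.elim (fun _ => t) fun _ => t') (fun i => by cases i <;> assumption)
    (by simp only [Fintype.sum_sum_type, Sum.elim_inl, Sum.elim_inr, sum_const, card_univ,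
          Fintype.card_fin, smul_eq_mul, Fintype.card_sum]
        nlinarith)
  simp only [Fintype.sum_sum_type, Sum.elim_inl, Sum.elim_inr, sum_const, card_univ,
    Fintype.card_fin, nsmul_eq_mul, Fintype.card_sum] at this
  have hb' : (n : ℝ) + b = 6 := by exact_mod_cast hb
  have a0 : (0 : ℝ) < a := by exact_mod_cast (by omega : 0 < a)
  have b0 : (0 : ℝ) < b := by exact_mod_cast (by omega : 0 < b)
  rw [show (6 : ℝ) - n = b by linarith]
  push_cast at this ⊢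
  rw [add_sub_cancel_left, div_le_div_iff₀ a0 b0]
  linarith

theorem Sym0.exists_lam (hC : Sym0 C) {h f : ℝ} (hh : ∀ u ∈ C, ∀ v ∈ C, ∀ t ∈ C, hform u v t ≤ h)
    {t5 : ℕ → ℝ} (h5 : IsCyc 5 t5) (hf : 2 * f ≤ cyc C 5 t5) :
    ∃ lam : ℝ, 0 ≤ lam ∧ lam ≤ h - f ∧
      ∀ (n : ℕ) (t : ℕ → ℝ), IsCyc n t → cyc C n t / 2 ≤ h + lam * (n - 6) := by
  let L : Set ℝ := {x | x = 0 ∨ ∃ (n : ℕ) (t : ℕ → ℝ), IsCyc n t ∧ 6 < n ∧
    x = (cyc C n t / 2 - h) / (n - 6)}
  have hub : ∀ (n : ℕ) (t : ℕ → ℝ), IsCyc n t → n < 6 → ∀ x ∈ L,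
      x ≤ (h - cyc C n t / 2) / (6 - n) := by
    rintro n t hc hn x (rfl | ⟨n', t', hc', hn', rfl⟩)
    · have : (n : ℝ) < 6 := by exact_mod_cast hn
      exact div_nonneg (by linarith [hC.cyc_six hh hc hn.le]) (by linarith)
    · exact hC.cyc_mix hh hc hc' hn hn'
  have hbd : BddAbove L := ⟨_, hub 5 t5 h5 (by norm_num)⟩
  have hne : L.Nonempty := ⟨0, Or.inl rfl⟩
  refine ⟨sSup L, le_csSup hbd (Or.inl rfl), ?_, fun n t hc => ?_⟩
  · have := csSup_le hne (hub 5 t5 h5 (by norm_num))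
    norm_num at this
    linarith
  rcases lt_trichotomy n 6 with hn | hn | hn
  · have k : (n : ℝ) < 6 := by exact_mod_cast hn
    have := csSup_le hne (hub n t hc hn)
    rw [le_div_iff₀ (by linarith)] at this
    linarith
  · have := hC.cyc_six hh hc hn.le
    rw [hn]; norm_num; rw [hn] at this; linarith
  · have k : (6 : ℝ) < n := by exact_mod_cast hn
    have := le_csSup hbd (Or.inr ⟨n, t, hc, hn, rfl⟩)
    rw [div_le_iff₀ (by linarith)] at this
    linarith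

end Pool.Agent.Lib.MP_fb520c_co
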