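import Pool.Agent.Lib.MP_fb520c_co.H33.CellBounds

/-! The covering theorem in a square: copies with a close neighbour are replaced by unit discs. -/

set_option autoImplicit false

open MeasureTheory Set Real Filter Topology Metric
open scoped ENNReal

noncomputable section

namespace Pool.Agent.Lib.MP_fb520c_co

/-- the polygonal cells of a covering by unit discs and well separated fat bodies -/
def FatPolys (r d : ℝ) : Prop :=
  ∀ (κ : Type) [Fintype κ] (c : κ → Plane) (K : κ → Set Plane),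
    (∀ k, IsCompact (K k) ∧ Convex ℝ (K k) ∧ closedBall (c k) r ⊆ K k ∧
      K k ⊆ closedBall (c k) 1) →
    (∀ k l, k ≠ l → (K k = closedBall (c k) 1 ∧ K l = closedBall (c l) 1 ∧ c k ≠ c l) ∨
      d < dist (c k) (c l)) →
    ∀ (o : Plane) (L : ℝ), 0 < L → (∀ z ∈ sq o L, ∃ k, z ∈ K k) →
      ∃ S : κ → Finset (Plane × ℝ), (∀ k, ∀ y ∈ S k, y.1 ≠ 0) ∧ (∀ k, poly (S k) ⊆ K k) ∧
        (∀ k l, k ≠ l → K k = closedBall (c k) 1 → K l = closedBall (c l) 1 →
          ∀ x ∈ poly (S k), dist x (c k) ≤ dist x (c l)) ∧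
        ∑ k, (S k).card ≤ 6 * (Fintype.card κ + 2) ∧
        ENNReal.ofReal (4 * L ^ 2) ≤ ∑ k, volume (poly (S k))

lemma bisector_cut33 {a b x : Plane} {c : ℝ} (hab : a ≠ b) (hd : dist a b ≤ 2 * c)
    (h : dist x a ≤ dist x b) : fv (‖b - a‖⁻¹ • (b - a)) (x - a) ≤ c := by
  have hn : 0 < ‖b - a‖ := norm_pos_iff.2 (sub_ne_zero.2 hab.symm)
  rw [dist_eq_norm, dist_eq_norm] at h
  rw [dist_comm, dist_eq_norm] at hd
  have h2 := pow_le_pow_left₀ (norm_nonneg _) h 2
  have e : fv (‖b - a‖⁻¹ • (b - a)) (x - a) = ‖b - a‖⁻¹ * fv (b - a) (x - a) := by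
    simp only [fv, PiLp.smul_apply, smul_eq_mul]; ring
  have k : 2 * fv (b - a) (x - a) ≤ ‖b - a‖ ^ 2 := by
    rw [norm_sq_eq, norm_sq_eq] at h2
    rw [norm_sq_eq]
    simp only [fv, PiLp.sub_apply] at h2 ⊢
    linarith
  rw [e, inv_mul_le_iff₀ hn]
  nlinarith [mul_le_mul_of_nonneg_left hd hn.le]

theorem Sym0.loc2 {C : Set Plane} (hC : Sym0 C) {r c h lam : ℝ} (hP : FatPolys r (2 * c))
    (hr : closedBall 0 r ⊆ C) (h1 : C ⊆ closedBall 0 1) (hc : 0 ≤ c) (l0 : 0 ≤ lam)
    (l6 : 6 * lam ≤ h)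
    (hb : ∀ S : Finset (Plane × ℝ), (∀ y ∈ S, y.1 ≠ 0) →
      (∀ g : Plane ≃ᵢ Plane, poly S ⊆ g '' C →
        volume (poly S) ≤ ENNReal.ofReal (h + lam * (S.card - 6))) ∧
      (∀ a e : Plane, ‖e‖ = 1 → poly S ⊆ closedBall a 1 ∩ {z | fv e (z - a) ≤ c} →
        volume (poly S) ≤ ENNReal.ofReal (h + lam * (S.card - 6))) ∧
      (∀ a : Plane, poly S ⊆ closedBall a 1 →
        volume (poly S) ≤ ENNReal.ofReal (2 * h + lam * (S.card - 6))))
    (ι : Type) [Fintype ι] (g : ι → Plane ≃ᵢ Plane) (o : Plane) (L : ℝ) (hL : 0 < L)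
    (hcov : ∀ z ∈ sq o L, ∃ i, z ∈ g i '' C) :
    4 * L ^ 2 ≤ Fintype.card ι * h + 2 * h := by
  classical
  let T : Finset Plane := Finset.univ.image fun i => g i 0
  have hT : ∀ k : T, ∃ i, g i 0 = k.1 := fun k =>
    let ⟨i, _, e⟩ := Finset.mem_image.1 k.2; ⟨i, e⟩
  choose rep hrep using hT
  let close : T → Prop := fun k => ∃ i, i ≠ rep k ∧ dist k.1 (g i 0) ≤ 2 * c
  let K : T → Set Plane := fun k => if close k then closedBall k.1 1 else g (rep k) '' C
  let w : T → ℕ := fun k => (Finset.univ.filter fun i => g i 0 = k.1).card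
  have hsub : ∀ i, g i '' C ⊆ closedBall (g i 0) 1 := fun i => by
    rw [← (g i).image_closedBall]; exact image_mono h1
  have hsup : ∀ i, closedBall (g i 0) r ⊆ g i '' C := fun i => by
    rw [← (g i).image_closedBall]; exact image_mono hr
  have hcl : ∀ k l : T, k ≠ l → dist k.1 l.1 ≤ 2 * c → close k := fun k l hkl hd =>
    ⟨rep l, fun e => hkl (Subtype.ext (by rw [← hrep k, ← hrep l, e])), by rwa [hrep]⟩
  obtain ⟨S, s0, s1, s2, s3, s4⟩ := hP T (fun k => k.1) K (fun k => by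
      simp only [K]
      split_ifs
      · exact ⟨isCompact_closedBall _ _, convex_closedBall _ _, by
          rw [← hrep k]; exact (hsup _).trans (hsub _), subset_rfl⟩
      · exact ⟨hC.cpt.image (g _).continuous, convex_isometry_image _ hC.cvx,
          by rw [← hrep k]; exact hsup _, by rw [← hrep k]; exact hsub _⟩)
    (fun k l hkl => by
      rcases le_or_gt (dist k.1 l.1) (2 * c) with hd | hd
      · exact Or.inl ⟨if_pos (hcl k l hkl hd), if_pos (hcl l k hkl.symm (by rwa [dist_comm])),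
          fun e => hkl (Subtype.ext e)⟩
      · exact Or.inr hd) o L hL (fun z hz => by
      obtain ⟨i, hi⟩ := hcov z hz
      refine ⟨⟨g i 0, by simp [T]⟩, ?_⟩
      simp only [K]
      split_ifs with hk
      · exact hsub i hi
      · by_contra hn
        exact hk ⟨i, fun e => hn (e ▸ hi), by simpa using hc⟩)
  have w1 : ∀ k, 1 ≤ w k := fun k => Finset.card_pos.2 ⟨rep k, by simp [hrep]⟩
  have h0 : 0 ≤ h := by linarith
  have harea : ∀ k, volume (poly (S k)) ≤
      ENNReal.ofReal (w k * h + lam * (((S k).card : ℝ) - 6)) := by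
    intro k
    obtain ⟨b1, b2, b3⟩ := hb (S k) (s0 k)
    have k1 : (1 : ℝ) * h ≤ w k * h := mul_le_mul_of_nonneg_right (by exact_mod_cast w1 k) h0
    have k0 := s1 k
    by_cases hk : close k
    · have e : K k = closedBall k.1 1 := if_pos hk
      rw [e] at k0
      obtain ⟨i, hi, hd⟩ := hk
      by_cases e2 : g i 0 = k.1
      · have : 2 ≤ w k := Finset.one_lt_card.2 ⟨i, by simpa using e2, rep k, by simp [hrep], hi⟩
        have k2 : (2 : ℝ) * h ≤ w k * h := mul_le_mul_of_nonneg_right (by exact_mod_cast this) h0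
        exact (b3 _ k0).trans (ENNReal.ofReal_le_ofReal (by linarith))
      · let l : T := ⟨g i 0, by simp [T]⟩
        have hkl : k ≠ l := fun e => e2 (by rw [e])
        have hne : k.1 ≠ g i 0 := fun e => e2 e.symm
        refine (b2 k.1 (‖g i 0 - k.1‖⁻¹ • (g i 0 - k.1)) (norm_smul_inv_norm
          (sub_ne_zero.2 e2)) fun x hx => ⟨k0 hx, bisector_cut33 hne hd ?_⟩).trans
          (ENNReal.ofReal_le_ofReal (by linarith))
        exact s2 k l hkl e (if_pos (hcl l k hkl.symm (by rwa [dist_comm]))) x hx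
    · have e : K k = g (rep k) '' C := if_neg hk
      rw [e] at k0
      exact (b1 _ k0).trans (ENNReal.ofReal_le_ofReal (by linarith))
  have hnn : ∀ k, 0 ≤ w k * h + lam * (((S k).card : ℝ) - 6) := fun k => by
    have k1 : (1 : ℝ) * h ≤ w k * h := mul_le_mul_of_nonneg_right (by exact_mod_cast w1 k) h0
    have := mul_nonneg l0 (Nat.cast_nonneg (α := ℝ) (S k).card)
    linarith
  have hsum := s4.trans (Finset.sum_le_sum fun k _ => harea k)
  rw [← ENNReal.ofReal_sum_of_nonneg (fun k _ => hnn k),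
    ENNReal.ofReal_le_ofReal_iff (Finset.sum_nonneg fun k _ => hnn k),
    Finset.sum_add_distrib, ← Finset.mul_sum, Finset.sum_sub_distrib, Finset.sum_const,
    Finset.card_univ, nsmul_eq_mul, ← Finset.sum_mul, ← Nat.cast_sum, ← Nat.cast_sum] at hsum
  have e1 : ((∑ k, (S k).card : ℕ) : ℝ) ≤ 6 * (Fintype.card T + 2) := by exact_mod_cast s3
  have e2 : ∑ k, w k = Fintype.card ι := by
    rw [Finset.sum_coe_sort T fun x => (Finset.univ.filter fun i => g i 0 = x).card,
      ← Finset.card_univ]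
    exact (Finset.card_eq_sum_card_image _ _).symm
  rw [e2] at hsum
  nlinarith [mul_le_mul_of_nonneg_left e1 l0]

end Pool.Agent.Lib.MP_fb520c_co
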