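import Pool.Agent.Lib.MP_fb520c_co.HarmB

/-! A potential for chords of a centrally symmetric convex polygonal line. -/

set_option autoImplicit false

open Real Finset

noncomputable section

namespace Pool.Agent.Lib.MP_fb520c_co

lemma exists_prim33 (δ : ℤ → ℝ) : ∃ ψ : ℤ → ℝ, ∀ j, ψ (j + 1) = ψ j + δ j := by
  refine ⟨fun j => ∑ m ∈ Ico 0 j, δ m - ∑ m ∈ Ico j 0, δ m, fun j => ?_⟩
  rcases le_or_gt 0 j with h | h
  · have e : Ico 0 (j + 1) = insert j (Ico 0 j) := by ext m; simp; omega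
    simp only
    rw [e, sum_insert (by simp), Ico_eq_empty_of_le h, Ico_eq_empty_of_le (by omega : 0 ≤ j + 1)]
    simp; ring
  · have e : Ico j 0 = insert j (Ico (j + 1) 0) := by ext m; simp; omega
    simp only
    rw [e, sum_insert (by simp), Ico_eq_empty_of_le h.le, Ico_eq_empty_of_le (by omega : j + 1 ≤ 0)]
    simp

lemma int_mono_on33 (G : ℤ → ℝ) {a b : ℤ} (hab : a ≤ b) (h : ∀ j, a ≤ j → j < b → G j ≤ G (j + 1)) :
    G a ≤ G b := by
  have : ∀ j, a ≤ j → j ≤ b → G a ≤ G j := by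
    intro j hj
    induction j, hj using Int.leInduction with
    | base => intro _; exact le_rfl
    | succ j hj ih => intro hb; exact (ih (by omega)).trans (h j hj (by omega))
  exact this b hab le_rfl

theorem monge_pot33 (x : ℤ → Plane) (N : ℕ) {h : ℝ} (hper : ∀ j : ℤ, x (j + (6 * N : ℕ)) = -x j)
    (hmono : ∀ i j : ℤ, i ≤ j → j ≤ i + (6 * N : ℕ) → 0 ≤ dt (x (i + 1) - x i) (x (j + 1) - x j))
    (hh : ∀ i j k, hform (x i) (x j) (x k) ≤ h) :
    ∃ (b ψ : ℤ → ℝ) (Λ : ℝ), (∀ i, 0 ≤ b i) ∧ (∀ i : ℤ, b (i + (6 * N : ℕ)) = b i) ∧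
      (∀ j : ℤ, ψ (j + (6 * N : ℕ)) = ψ j + Λ) ∧
      (∀ i j : ℤ, i ≤ j → j ≤ i + (6 * N : ℕ) → dt (x i) (x j) ≤ b i + ψ j - ψ i) ∧
      ∑ i ∈ range (6 * N), b i + 2 * N * Λ ≤ 2 * N * h := by
  set M : ℤ := ((6 * N : ℕ) : ℤ) with hM
  set k : ℤ := ((2 * N : ℕ) : ℤ) with hk
  have hk0 : 0 ≤ k := by positivity
  have hkM : k ≤ M := by rw [hk, hM]; push_cast; omega
  let Δ : ℤ → ℤ → ℝ := fun i m => dt (x i) (x (m + 1) - x m)
  have hΔ : ∀ m i i', m - M ≤ i → i ≤ i' → i' ≤ m + 1 → Δ i m ≤ Δ i' m := by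
    intro m i i' h1 h2 h3
    refine int_mono_on33 (fun i => Δ i m) h2 fun j k1 k2 => ?_
    have := hmono j m (by omega) (by omega)
    rw [dt_sub_left] at this
    simp only [Δ]; linarith
  obtain ⟨ψ, hψ⟩ := exists_prim33 fun j => Δ (j - k) j
  have hδ : ∀ j, Δ (j + M - k) (j + M) = Δ (j - k) j := by
    intro j
    simp only [Δ]
    rw [show j + M - k = j - k + M by ring, show j + M + 1 = j + 1 + M by ring, hper, hper, hper,
      dt_neg_left, dt_sub_right, dt_sub_right, dt_neg_right, dt_neg_right]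
    ring
  have hΛ : ∀ j, ψ (j + M) = ψ j + (ψ M - ψ 0) := by
    intro j
    induction j using Int.induction_on with
    | zero => simp
    | succ j ih => rw [show (j : ℤ) + 1 + M = j + M + 1 by ring, hψ, hψ, ih, hδ]; ring
    | pred j ih =>
      have e1 := hψ (-(j : ℤ) - 1 + M)
      have e2 := hψ (-(j : ℤ) - 1)
      rw [show -(j : ℤ) - 1 + M + 1 = -j + M by ring, hδ] at e1
      rw [sub_add_cancel] at e2
      linarith
  set Λ := ψ M - ψ 0
  have key : ∀ i j, i ≤ j → j ≤ i + M →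
      ψ (i + k) - dt (x i) (x (i + k)) ≤ ψ j - dt (x i) (x j) := by
    intro i j h1 h2
    rcases le_total (i + k) j with h3 | h3
    · refine int_mono_on33 (fun j => ψ j - dt (x i) (x j)) h3 fun m k1 k2 => ?_
      have := hΔ m i (m - k) (by omega) (by omega) (by omega)
      simp only [Δ, dt_sub_right] at this
      simp only [hψ, Δ, dt_sub_right]; linarith
    · have := int_mono_on33 (fun j => -(ψ j - dt (x i) (x j))) h3 fun m k1 k2 => by
        have := hΔ m (m - k) i (by omega) (by omega) (by omega)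
        simp only [Δ, dt_sub_right] at this
        simp only [hψ, Δ, dt_sub_right]; linarith
      linarith
  refine ⟨fun i => dt (x i) (x (i + k)) - ψ (i + k) + ψ i, ψ, Λ, fun i => ?_, fun i => ?_, hΛ,
    fun i j h1 h2 => by linarith [key i j h1 h2], ?_⟩
  · have := key i i le_rfl (by omega)
    rw [dt_self] at this
    simp only; linarith
  · simp only
    rw [show i + M + k = i + k + M by ring, hper, hper, hΛ, hΛ, dt_neg_left, dt_neg_right]; ring
  · have s1 : ∀ q : ℕ, ∑ i ∈ range (6 * N), (ψ (i + q) - ψ i) = q * Λ := by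
      intro q
      induction q with
      | zero => simp
      | succ q ih =>
        have t := sum_range_sub (fun i : ℕ => ψ (i + q)) (6 * N)
        have e := hΛ q
        have e2 : ∑ i ∈ range (6 * N), (ψ (i + (q + 1 : ℕ)) - ψ i) =
            ∑ i ∈ range (6 * N), (ψ (i + q) - ψ i) +
              ∑ i ∈ range (6 * N), (ψ ((i + 1 : ℕ) + q) - ψ (i + q)) := by
          rw [← sum_add_distrib]
          refine sum_congr rfl fun i _ => ?_
          push_cast
          rw [show (i : ℤ) + (q + 1) = i + 1 + q by ring]; ring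
        rw [e2, ih, t, add_comm ((6 * N : ℕ) : ℤ), ← hM, e]
        push_cast; simp; ring
    have s2 : ∑ i ∈ range (6 * N), dt (x i) (x (i + k)) ≤ 2 * N * h := by
      have e : 6 * N = 2 * N + 2 * N + 2 * N := by ring
      rw [e, sum_range_add, sum_range_add, ← sum_add_distrib, ← sum_add_distrib]
      refine (sum_le_card_nsmul _ _ h fun i _ => ?_).trans (by simp)
      have := hh i (i + k) (i + k + k)
      have e3 := hper i
      have e4 : ((2 * N + 2 * N + i : ℕ) : ℤ) + k = i + M := by rw [hk, hM]; push_cast; ring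
      have e5 : ((2 * N + 2 * N + i : ℕ) : ℤ) = i + k + k := by rw [hk]; push_cast; ring
      have e6 : ((2 * N + i : ℕ) : ℤ) = i + k := by rw [hk]; push_cast; ring
      rw [e4, e3, e5, e6, dt_neg_right, ← dt_swap]
      exact this
    have s3 := s1 (2 * N)
    rw [← hk] at s3
    have : ∑ i ∈ range (6 * N), (dt (x i) (x (i + k)) - ψ (i + k) + ψ i) =
        ∑ i ∈ range (6 * N), dt (x i) (x (i + k)) - ∑ i ∈ range (6 * N), (ψ (i + k) - ψ i) := by
      rw [← sum_sub_distrib]
      exact sum_congr rfl fun i _ => by ring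
    rw [this, s3]
    push_cast
    linarith

lemma exists_sorted33 {Y : Type} [Fintype Y] {M : ℕ} (hM : 0 < M) (hY : Fintype.card Y ≤ M)
    (θ : Y → ℝ) : ∃ (s : ℤ → ℝ) (ι : Y → Fin M) (q : Y → ℤ), Monotone s ∧
      (∀ j : ℤ, s (j + M) = s j + π) ∧ Function.Injective ι ∧ ∀ y, s (((ι y : ℕ) : ℤ) + M * q y) = θ y := by
  classical
  obtain ⟨e⟩ : Nonempty (Y ↪ Fin M) := Function.Embedding.nonempty_of_card_le (by simpa)
  let α : Fin M → ℝ := Function.extend e (fun y => toIcoMod Real.pi_pos 0 (θ y)) 0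
  have hαe : ∀ y, α (e y) = toIcoMod Real.pi_pos 0 (θ y) := fun y => e.injective.extend_apply _ _ y
  have hα : ∀ j, 0 ≤ α j ∧ α j < π := by
    intro j
    by_cases hj : ∃ y, e y = j
    · obtain ⟨y, rfl⟩ := hj
      rw [hαe]
      simpa using toIcoMod_mem_Ico Real.pi_pos 0 (θ y)
    · simp only [α, Function.extend_apply' _ _ _ hj]
      exact ⟨le_rfl, Real.pi_pos⟩
  let σ := Tuple.sort α
  have hσ : Monotone (α ∘ σ) := Tuple.monotone_sort α
  have hM' : (0 : ℤ) < M := by exact_mod_cast hM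
  let r : ℤ → Fin M := fun j => ⟨(j % M).toNat, by
    have := Int.emod_lt_of_pos j hM'
    have := Int.emod_nonneg j hM'.ne'
    omega⟩
  have hr : ∀ j, ((r j : ℕ) : ℤ) = j % M := fun j => Int.toNat_of_nonneg (Int.emod_nonneg j hM'.ne')
  refine ⟨fun j => α (σ (r j)) + π * ((j / M : ℤ) : ℝ), fun y => σ.symm (e y),
    fun y => toIcoDiv Real.pi_pos 0 (θ y), ?_, fun j => ?_,
    σ.symm.injective.comp e.injective, fun y => ?_⟩
  · intro i j hij
    simp only
    have h1 : i / M ≤ j / M := Int.ediv_le_ediv hM' hij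
    rcases h1.eq_or_lt with h2 | h2
    · have e1 := Int.emod_add_mul_ediv i M
      have e2 := Int.emod_add_mul_ediv j M
      have : r i ≤ r j := by
        rw [Fin.le_def, ← Nat.cast_le (α := ℤ), hr, hr]
        rw [h2] at e1
        omega
      have := hσ this
      simp only [Function.comp] at this
      rw [h2]; linarith
    · have h3 : ((i / M : ℤ) : ℝ) + 1 ≤ ((j / M : ℤ) : ℝ) := by exact_mod_cast h2
      nlinarith [hα (σ (r i)), hα (σ (r j)), Real.pi_pos]
  · have e1 : r (j + M) = r j := Fin.ext (by simp [r])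
    have e2 : (j + M) / M = j / M + 1 := by
      rw [Int.add_ediv_of_dvd_right dvd_rfl, Int.ediv_self hM'.ne']
    simp only
    rw [e1, e2]; push_cast; ring
  · set a := σ.symm (e y)
    have a0 : (0 : ℤ) ≤ (a : ℕ) := by positivity
    have a1 : ((a : ℕ) : ℤ) < M := by exact_mod_cast a.2
    have e1 : r (a + M * toIcoDiv Real.pi_pos 0 (θ y)) = a := by
      apply Fin.ext
      rw [← Nat.cast_inj (R := ℤ), hr, Int.add_mul_emod_self_left, Int.emod_eq_of_lt a0 a1]
    have e2 : ((a : ℕ) + M * toIcoDiv Real.pi_pos 0 (θ y) : ℤ) / M = toIcoDiv Real.pi_pos 0 (θ y) := by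
      rw [Int.add_mul_ediv_left _ _ hM'.ne', Int.ediv_eq_zero_of_lt a0 a1, zero_add]
    simp only
    rw [e1, e2, Equiv.apply_symm_apply, hαe]
    have := toIcoMod_add_toIcoDiv_zsmul Real.pi_pos 0 (θ y)
    rw [zsmul_eq_mul] at this
    linarith

end Pool.Agent.Lib.MP_fb520c_co
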