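import Pool.Agent.Lib.MP_fb520c_co.H33.DowkerIn

/-! The area of an intersection of half-planes inside a symmetric body. -/

set_option autoImplicit false

open MeasureTheory Set Real Filter Topology Metric
open scoped ENNReal

noncomputable section

namespace Pool.Agent.Lib.MP_fb520c_co

variable {C : Set Plane}

lemma exists_chain33 (b : ℝ) : ∀ (n : ℕ) (B : Finset ℝ) (a : ℝ), B.card = n → b ∈ B →
    (∀ x ∈ B, a < x ∧ x ≤ b) → ∃ t : ℕ → ℝ, t 0 = a ∧ t n = b ∧
      ∀ k < n, a ≤ t k ∧ t k < t (k + 1) ∧ t (k + 1) ≤ b ∧ ∀ x ∈ B, t k < x → t (k + 1) ≤ x := by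
  intro n
  induction n with
  | zero => intro B a h hb; rw [Finset.card_eq_zero] at h; simp [h] at hb
  | succ n ih =>
    intro B a h hb hB
    have hne : B.Nonempty := ⟨b, hb⟩
    have hm := B.min'_mem hne
    set m := B.min' hne
    have hle : ∀ x ∈ B, m ≤ x := fun x hx => B.min'_le x hx
    by_cases e : m = b
    · have : B = {b} := Finset.eq_singleton_iff_unique_mem.2
        ⟨hb, fun x hx => le_antisymm (hB x hx).2 (e ▸ hle x hx)⟩
      have hn : n = 0 := by rw [this] at h; simpa using h.symm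
      subst hn
      refine ⟨fun k => if k = 0 then a else b, rfl, rfl, fun k hk => ?_⟩
      obtain rfl : k = 0 := by omega
      exact ⟨le_rfl, (hB b hb).1, le_rfl, fun x hx _ => e ▸ hle x hx⟩
    · obtain ⟨t, t0, tn, ht⟩ := ih (B.erase m) m (by rw [Finset.card_erase_of_mem hm, h]; rfl)
        (Finset.mem_erase.2 ⟨fun e' => e e'.symm, hb⟩) fun x hx =>
          ⟨lt_of_le_of_ne (hle x (Finset.mem_of_mem_erase hx)) (Finset.ne_of_mem_erase hx).symm,
            (hB x (Finset.mem_of_mem_erase hx)).2⟩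
      refine ⟨fun k => Nat.casesOn k a t, rfl, tn, fun k hk => ?_⟩
      cases k with
      | zero =>
        exact ⟨le_rfl, (hB m hm).1.trans_eq t0.symm, t0.trans_le (hB m hm).2,
          fun x hx _ => t0.trans_le (hle x hx)⟩
      | succ k =>
        obtain ⟨k1, k2, k3, k4⟩ := ht k (by omega)
        exact ⟨(hB m hm).1.le.trans k1, k2, k3, fun x hx hl =>
          k4 x (Finset.mem_erase.2 ⟨fun e' => absurd (e' ▸ hl) (not_lt.2 k1), hx⟩) hl⟩

lemma exists_step33 {t : ℕ → ℝ} {x : ℝ} : ∀ n : ℕ, t 0 ≤ x → x < t n →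
    ∃ k < n, t k ≤ x ∧ x < t (k + 1) := by
  intro n h0
  induction n with
  | zero => intro h; exact absurd h (not_lt.2 h0)
  | succ n ih =>
    intro h
    rcases lt_or_ge x (t n) with h' | h'
    · obtain ⟨k, hk, h2⟩ := ih h'
      exact ⟨k, by omega, h2⟩
    · exact ⟨n, by omega, h', h⟩

/-- a triangle with a vertex at the origin -/
def tri0 (a b : Plane) : Set Plane := {z | 0 ≤ dt z b ∧ 0 ≤ dt a z ∧ dt z b + dt a z < dt a b}

lemma volume_tri0 {a b : Plane} (h : 0 < dt a b) :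
    volume (tri0 a b) ≤ ENNReal.ofReal (dt a b / 2) := by
  have e : b 1 / dt a b * (a 0 / dt a b) - -b 0 / dt a b * (-a 1 / dt a b) = (dt a b)⁻¹ := by
    field_simp
    simp only [dt]; ring
  let R := regionBetween (fun _ : ℝ => (0 : ℝ)) (fun x => 1 - x) (Ioc 0 1)
  have mR : MeasurableSet R :=
    measurableSet_regionBetween measurable_const (by fun_prop) measurableSet_Ioc
  let T : Set (ℝ × ℝ) := R ∪ ({0} ×ˢ univ ∪ univ ×ˢ {0})
  have mT : MeasurableSet T := mR.union (((measurableSet_singleton _).prod .univ).union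
    (MeasurableSet.univ.prod (measurableSet_singleton _)))
  have vT : volume T ≤ ENNReal.ofReal (1 / 2) := by
    refine (measure_union_le _ _).trans ?_
    rw [volume_std, measure_union_null, add_zero] <;>
      simp [Measure.volume_eq_prod, Measure.prod_prod]
  have hs : tri0 a b ⊆ co a b ⁻¹' T := by
    rintro z ⟨h1, h2, h3⟩
    have c1 : (co a b z).1 = dt z b / dt a b := by simp only [co, lin, dt]; ring
    have c2 : (co a b z).2 = dt a z / dt a b := by simp only [co, lin, dt]; ring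
    have s : (co a b z).1 + (co a b z).2 < 1 := by
      rw [c1, c2, ← add_div, div_lt_one h]; exact h3
    have p1 : 0 ≤ (co a b z).1 := by rw [c1]; positivity
    have p2 : 0 ≤ (co a b z).2 := by rw [c2]; positivity
    rcases p1.eq_or_lt with q1 | q1
    · exact Or.inr (Or.inl ⟨q1.symm, trivial⟩)
    rcases p2.eq_or_lt with q2 | q2
    · exact Or.inr (Or.inr ⟨trivial, q2.symm⟩)
    exact Or.inl ⟨⟨q1, by linarith⟩, q2, by simp only; linarith⟩
  refine (measure_mono hs).trans ?_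
  rw [co, volume_lin (by rw [e]; positivity) mT, e, inv_inv, abs_of_pos h]
  refine (mul_le_mul_right vT _).trans (le_of_eq ?_)
  rw [← ENNReal.ofReal_mul h.le]
  congr 1; ring

lemma fv_smul33 (v z : Plane) (s : ℝ) : fv v (s • z) = s * fv v z := by simp [fv]; ring

lemma fv_ident33 (v X Y Z : Plane) : dt X Z * fv v Y = dt Y Z * fv v X + dt X Y * fv v Z := by
  simp only [dt, fv]; ring

lemma Sym0.cap_conv (hC : Sym0 C) {v : Plane} {d s m t : ℝ} (hd : 0 ≤ d) (h1 : s ≤ m) (h2 : m ≤ t)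
    (h3 : t < s + π) (k1 : d ≤ fv v (bd C s)) (k2 : d ≤ fv v (bd C t)) : d ≤ fv v (bd C m) := by
  rcases (h1.trans h2).eq_or_lt with e | hl
  · rwa [le_antisymm (e ▸ h2) h1]
  have a := hC.dt_bd_nonneg h1 (by linarith)
  have b := hC.dt_bd_nonneg h2 (by linarith)
  have c := hC.dt_bd_pos hl h3
  have t3 := hC.three33 (hC.g_bd s) (hC.g_bd m) (hC.g_bd t) a b c.le
  refine le_of_mul_le_mul_left ?_ c
  rw [fv_ident33]
  nlinarith [mul_le_mul_of_nonneg_left k1 b, mul_le_mul_of_nonneg_left k2 a,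
    mul_le_mul_of_nonneg_right t3 hd]

lemma Sym0.bd_two_pi (hC : Sym0 C) (θ : ℝ) (m : ℤ) : bd C (θ + m * (2 * π)) = bd C θ := by
  have : Function.Periodic (bd C) (2 * π) := fun x => by
    rw [two_mul, ← add_assoc, hC.bd_add_pi, hC.bd_add_pi, neg_neg]
  exact this.int_mul m θ

lemma Sym0.cap_end (hC : Sym0 C) {v : Plane} (hv : v ≠ 0) {d : ℝ} (hd : 0 < d) :
    ∃ β : ℝ, ∀ s, s ∈ closure ({x | d ≤ fv v (bd C x)} ∩ Ioi s) → ∃ m : ℤ,
      s < β + m * (2 * π) ∧ β + m * (2 * π) < s + π ∧ d ≤ fv v (bd C s) ∧ d ≤ fv v (bd C β) := by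
  obtain ⟨ρ, u, hρ, -, -, e0, e1⟩ := exists_angle (v 0) (v 1) (by
    by_contra h
    push Not at h
    exact hv (plane_ext h.1 h.2))
  have hcos : ∀ x, d ≤ fv v (bd C x) → 0 < cos (x - u) := by
    intro x hx
    have g := inv_pos.2 (hC.g_pos (pol_ne_zero33 x))
    have : fv v (bd C x) = (gauge C (pol 1 x))⁻¹ * ρ * cos (x - u) := by
      rw [bd, fv_smul33]; simp only [fv, pol, pt_zero, pt_one, e0, e1, cos_sub]; ring
    exact (mul_pos_iff_of_pos_left (mul_pos g hρ)).1 (this ▸ hd.trans_le hx)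
  have hcl : IsClosed {x | d ≤ fv v (bd C x)} :=
    isClosed_le continuous_const ((continuous_fv v).comp hC.bd_cont)
  set A := {x | d ≤ fv v (bd C x)} with hA
  have hK : IsCompact (Icc (u - π / 2) (u + π / 2) ∩ A) := isCompact_Icc.inter_right hcl
  refine ⟨sSup (Icc (u - π / 2) (u + π / 2) ∩ A), fun s hs => ?_⟩
  have hsA : s ∈ A := hcl.closure_subset (closure_mono inter_subset_left hs)
  set m := toIocDiv two_pi_pos (u - π) s
  have hm := sub_toIocDiv_zsmul_mem_Ioc two_pi_pos (u - π) s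
  rw [zsmul_eq_mul] at hm
  have hper : ∀ x ∈ A, x - m * (2 * π) ∈ A := fun x hx => by
    have := hC.bd_two_pi (x - m * (2 * π)) m
    rw [sub_add_cancel] at this
    simpa only [hA, mem_ofPred_eq, ← this] using hx
  have hc := hcos _ (hper s hsA)
  have l1 : u - π / 2 < s - m * (2 * π) := by
    by_contra h
    have := cos_nonpos_of_pi_div_two_le_of_le (x := -(s - m * (2 * π) - u)) (by linarith)
      (by linarith [hm.1, pi_pos])
    rw [cos_neg] at this
    linarith
  have l2 : s - m * (2 * π) < u + π / 2 := by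
    by_contra h
    have := cos_nonpos_of_pi_div_two_le_of_le (x := s - m * (2 * π) - u) (by linarith)
      (by linarith [hm.2, pi_pos])
    linarith
  obtain ⟨x, hx1, hx2, hx3⟩ := mem_closure_iff.1 hs (Iio (u + π / 2 + m * (2 * π))) isOpen_Iio
    (show s < _ by linarith)
  have hx1' : x < u + π / 2 + m * (2 * π) := hx1
  have hx3' : s < x := hx3
  have hx : x - m * (2 * π) ∈ Icc (u - π / 2) (u + π / 2) ∩ A :=
    ⟨⟨by linarith, by linarith⟩, hper x hx2⟩
  have hβ := hK.sSup_mem ⟨_, hx⟩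
  have := le_csSup hK.bddAbove hx
  exact ⟨m, by linarith, by linarith [hβ.1.2], hsA, hβ.2⟩

theorem Sym0.poly_cyc (hC : Sym0 C) {S : Finset (Plane × ℝ)} (hS : ∀ y ∈ S, y.1 ≠ 0)
    (h0 : (0 : Plane) ∈ poly S) (h : poly S ⊆ C) : ∃ (n : ℕ) (t : ℕ → ℝ), n ≤ S.card ∧
      IsCyc n t ∧ volume (poly S) ≤ ENNReal.ofReal (cyc C n t / 2) := by
  classical
  have hd : ∀ y ∈ S, 0 < y.2 := fun y hy => by simpa [fv] using h0 y hy
  have hcov : ∀ θ, ∃ y ∈ S, y.2 ≤ fv y.1 (bd C θ) := by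
    intro θ
    by_contra hn
    push Not at hn
    have hi : bd C θ ∈ interior C := interior_maximal h (isOpen_poly S) hn
    have := (gauge_lt_one_iff_mem_interior hC.cvx hC.nhds).2 hi
    rw [hC.g_bd] at this
    exact lt_irrefl _ this
  choose! β hβ using fun y (hy : y ∈ S) => hC.cap_end (hS y hy) (hd y hy)
  obtain ⟨y0, hy0, -⟩ := hcov 0
  set a := β y0
  let B := S.image fun y => toIocMod two_pi_pos a (β y)
  obtain ⟨t, t0, tn, ht⟩ := exists_chain33 (a + 2 * π) B.card B a rfl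
    (Finset.mem_image.2 ⟨y0, hy0, toIocMod_apply_left _ _⟩) fun x hx => by
      obtain ⟨y, -, rfl⟩ := Finset.mem_image.1 hx
      exact toIocMod_mem_Ioc _ _ _
  have key : ∀ k < B.card, t (k + 1) < t k + π ∧
      ∃ y ∈ S, y.2 ≤ fv y.1 (bd C (t k)) ∧ y.2 ≤ fv y.1 (bd C (t (k + 1))) := by
    intro k hk
    obtain ⟨k1, k2, k3, k4⟩ := ht k hk
    have : t k ∈ closure (⋃ y ∈ S, {x | y.2 ≤ fv y.1 (bd C x)} ∩ Ioi (t k)) := by
      refine closure_mono (s := Ioi (t k)) (fun x hx => ?_) (by rw [closure_Ioi]; exact self_mem_Ici)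
      obtain ⟨y, hy, hy'⟩ := hcov x
      exact mem_biUnion hy ⟨hy', hx⟩
    rw [S.closure_biUnion] at this
    obtain ⟨y, hy, hy'⟩ := mem_iUnion₂.1 this
    obtain ⟨m, m1, m2, m3, m4⟩ := hβ y hy _ hy'
    have hle : t (k + 1) ≤ β y + m * (2 * π) := by
      rcases le_total (β y + m * (2 * π)) (a + 2 * π) with h1 | h1
      · refine k4 _ (Finset.mem_image.2 ⟨y, hy, ?_⟩) m1
        rw [toIocMod_eq_iff]
        exact ⟨⟨by linarith, h1⟩, -m, by rw [zsmul_eq_mul]; push_cast; ring⟩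
      · linarith
    exact ⟨by linarith, y, hy, m3, hC.cap_conv (hd y hy).le k2.le hle m2 m3
      (by rw [hC.bd_two_pi]; exact m4)⟩
  have hpos : ∀ k < B.card, 0 < dt (bd C (t k)) (bd C (t (k + 1))) := fun k hk =>
    hC.dt_bd_pos (ht k hk).2.1 (key k hk).1
  refine ⟨B.card, t, Finset.card_image_le, ⟨fun k hk => ⟨(ht k hk).2.1, (key k hk).1⟩,
    by rw [tn, t0]⟩, ?_⟩
  have hsub : poly S ⊆ ⋃ k ∈ Finset.range B.card, tri0 (bd C (t k)) (bd C (t (k + 1))) := by
    intro z hz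
    obtain ⟨ρ, θ, hρ, hz'⟩ : ∃ ρ θ : ℝ, 0 ≤ ρ ∧ z = ρ • bd C θ := by
      by_cases e : z = 0
      · exact ⟨0, 0, le_rfl, by simp [e]⟩
      obtain ⟨ρ, u, hρ, -, -, e0, e1⟩ := exists_angle (z 0) (z 1) (by
        by_contra h
        push Not at h
        exact e (plane_ext h.1 h.2))
      have g := hC.g_pos (pol_ne_zero33 u)
      refine ⟨ρ * gauge C (pol 1 u), u, by positivity, ?_⟩
      rw [bd, smul_smul, mul_assoc, mul_inv_cancel₀ g.ne', mul_one, ← pol_smul33]
      exact plane_ext e0 e1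
    have hm := toIcoMod_mem_Ico two_pi_pos a θ
    have hb : bd C (toIcoMod two_pi_pos a θ) = bd C θ := by
      have e := toIcoMod_add_toIcoDiv_zsmul two_pi_pos a θ
      rw [zsmul_eq_mul] at e
      rw [← hC.bd_two_pi _ (toIcoDiv two_pi_pos a θ), e]
    rw [← hb] at hz'
    obtain ⟨k, hk, k1, k2⟩ := exists_step33 (t := t) B.card (t0.trans_le hm.1)
      (hm.2.trans_eq tn.symm)
    obtain ⟨g, y, hy, y1, y2⟩ := key k hk
    have p1 : 0 ≤ dt z (bd C (t (k + 1))) := by
      rw [hz', dt_smul_left]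
      exact mul_nonneg hρ (hC.dt_bd_nonneg k2.le (by linarith))
    have p2 : 0 ≤ dt (bd C (t k)) z := by
      rw [hz', dt_smul_right]
      exact mul_nonneg hρ (hC.dt_bd_nonneg k1 (by linarith))
    refine mem_biUnion (Finset.mem_range.2 hk) ⟨p1, p2, ?_⟩
    refine lt_of_mul_lt_mul_right ?_ (hd y hy).le
    have e := fv_ident33 y.1 (bd C (t k)) z (bd C (t (k + 1)))
    nlinarith [mul_le_mul_of_nonneg_left y1 p1, mul_le_mul_of_nonneg_left y2 p2,
      mul_lt_mul_of_pos_left (hz y hy) (hpos k hk)]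
  refine (measure_mono hsub).trans ((measure_biUnion_finset_le _ _).trans ?_)
  rw [cyc, Finset.sum_div, ENNReal.ofReal_sum_of_nonneg fun k hk =>
    div_nonneg (hpos k (Finset.mem_range.1 hk)).le zero_le_two]
  exact Finset.sum_le_sum fun k hk => volume_tri0 (hpos k (Finset.mem_range.1 hk))

end Pool.Agent.Lib.MP_fb520c_co
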